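import Pool.Agent.H68.VD.Tr

set_option autoImplicit false

namespace Pool.Agent.Results.MP_b0bf68_gt.FlatDiameter

open MeasureTheory Set Pool.Agent.H68.VD
open scoped ENNReal

/-- The diameter of the volumorphism groups of all closed flat manifolds of dimension at least three,
for the right-invariant metrics of all Sobolev orders.

`FlatDeck P` says that `P` is the deck group of a closed flat manifold `Eu n / P`, in affine coordinates
in which `P` contains the integer translations with finite index and its linear parts preserve the
integer lattice (by Bieberbach every closed flat manifold is of this form). A volumorphism of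
`Eu n / P` isotopic to the identity is represented by a lift that commutes with `P` (`FG P`),
`fdist N P f g` is the geodesic distance for the norm `N` on velocity fields, `fdiam N P` the diameter
of the group. `Scale N` says that `N s` is the `H^s` norm (Fourier coefficients) or, for one `p > 1`,
the `W^{s,p}` norm (Sobolev-Slobodeckij, dual norm for `s < 0`). `FInv P m` says that the translation by
`m` commutes with `P`.

For every `s < 0` the distance is the distance of the flux classes (`FluxDist`), so the diameter is
finite, and zero exactly when there is no nonzero invariant vector (first Betti number zero). For every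
`s ≥ 0` the diameter is infinite. So there is no transition zero, finite, infinite. -/
theorem result (n : ℕ) (hn : 3 ≤ n) (P : Set (Eu n → Eu n)) (hP : FlatDeck P)
    (N : ℝ → (Eu n → Eu n) → ℝ≥0∞) (hN : Scale N) :
    (∀ s < 0, FluxDist (N s) P) ∧
    (∀ s < 0, fdiam (N s) P < ⊤ ∧ (fdiam (N s) P = 0 ↔ ∀ m, FInv P m → m = 0)) ∧
    (∀ s, 0 ≤ s → fdiam (N s) P = ⊤) ∧
    ¬ Transition (fun s => fdiam (N s) P) := by
  obtain ⟨h1, h2, h3⟩ := classifyS hn P hP N hN
  refine ⟨h1, h2, h3, ?_⟩
  rintro ⟨s₁, s₂, s₃, h12, -, h0, ⟨hpos, hfin⟩, -⟩
  simp only at h0 hpos hfin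
  have hs2 : s₂ < 0 := by
    by_contra hcon
    rw [h3 s₂ (not_lt.mp hcon)] at hfin
    exact lt_irrefl _ hfin
  have h4 := (h2 s₁ (h12.trans hs2)).2.mp h0
  rw [(h2 s₂ hs2).2.mpr h4] at hpos
  exact lt_irrefl _ hpos

end Pool.Agent.Results.MP_b0bf68_gt.FlatDiameter
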