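import Pool.Agent.H68.Pure.Main

namespace Pool.Agent.Results.MP_28724c_co.PureDirections

/-- The Ramsey number `R(a,b)`: the least positive integer `n` such that every simple graph on
`n` vertices (red = edges of `G`, blue = edges of the complement) contains a red clique with `a`
vertices or a blue clique with `b` vertices. -/
noncomputable def ramsey (a b : ℕ) : ℕ :=
  sInf {n | 0 < n ∧ ∀ G : SimpleGraph (Fin n),
    (∃ S : Finset (Fin n), G.IsNClique a S) ∨ (∃ S : Finset (Fin n), Gᶜ.IsNClique b S)}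

/-- Sanity check: the set in the definition of `ramsey` is nonempty. -/
theorem ramsey_spec (a b : ℕ) : 0 < ramsey a b ∧ ∀ G : SimpleGraph (Fin (ramsey a b)),
    (∃ S : Finset (Fin (ramsey a b)), G.IsNClique a S) ∨
    (∃ S : Finset (Fin (ramsey a b)), Gᶜ.IsNClique b S) :=
  Pool.Agent.H28.Ramsey.ramsey_spec a b

/-- The diagonal case: `R(l,l) ≤ (2 + ε)^k R(l-k,l)` for all `k ≤ κ l`. -/
theorem diagonal (ε : ℝ) (hε : 0 < ε) :
    ∃ κ : ℝ, 0 < κ ∧ ∃ n₀ : ℕ, ∀ l k : ℕ, n₀ ≤ l → (k : ℝ) ≤ κ * l →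
      (ramsey l l : ℝ) ≤ (2 + ε) ^ k * ramsey (l - k) l :=
  Pool.Agent.H68.Pure.diagonal hε

/-- **Main theorem.** The Erdos-Szekeres inequality for linearly many steps in each of the two
directions. -/
theorem result : ∀ ε : ℝ, 0 < ε → ∃ κ : ℝ, 0 < κ ∧ ∃ n₀ : ℕ, ∀ a b k j : ℕ,
    n₀ ≤ a → n₀ ≤ b → 1 ≤ k → 1 ≤ j →
    (k : ℝ) ≤ κ * min (a : ℝ) b → (j : ℝ) ≤ κ * min (a : ℝ) b →
    1 - ε ≤ ((ramsey (a - k) b : ℝ) / ramsey a b) ^ (1 / (k : ℝ)) +
      ((ramsey a (b - j) : ℝ) / ramsey a b) ^ (1 / (j : ℝ)) :=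
  fun _ hε => Pool.Agent.H68.Pure.additive hε

end Pool.Agent.Results.MP_28724c_co.PureDirections
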